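import Pool.Agent.W957.CH.Stm2

/-!
CH-LA1: existence of preladders.
-/

namespace Pool.Agent.W174.CH.LA1

open Finset Pool.Agent.W957.CH

theorem rho_ge (R τ u : ℕ) : τ + 1 ≤ rho R τ u := by
  induction u with
  | zero => exact le_rfl
  | succ u ih =>
    show τ + 1 ≤ 2 * rho R τ u + R + 2 * τ + 4
    omega

/-- a long interval without bad positions -/
theorem long_gap (h2 : S_SEG) (n N : ℕ) (Bd : Finset ℕ) (hB : ∀ i ∈ Bd, i < n)
    (hN : (Bd.card + 1) * N ≤ n) (hN0 : 1 ≤ N) :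
    ∃ a b, a ≤ b ∧ b < n ∧ N ≤ b - a + 1 ∧ ∀ i, a ≤ i → i ≤ b → i ∉ Bd := by
  classical
  obtain ⟨Sg, hc, h3, h4⟩ := h2 n Bd hB
  by_contra hcon
  push Not at hcon
  have h5 : ∀ p ∈ Sg, p.2 + 1 - p.1 ≤ N - 1 := by
    intro p hp
    obtain ⟨h6, h7, h8⟩ := h3 p hp
    by_contra h9
    obtain ⟨i, hi1, hi2, hi3⟩ := hcon p.1 p.2 h6 h7 (by omega)
    exact h8 i hi1 hi2 hi3
  have h6 : range n ⊆ Bd ∪ Sg.biUnion (fun p => Icc p.1 p.2) := by
    intro i hi
    rw [mem_range] at hi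
    rw [mem_union, mem_biUnion]
    by_cases hb : i ∈ Bd
    · exact Or.inl hb
    · obtain ⟨p, hp, h7, h8⟩ := h4 i hi hb
      exact Or.inr ⟨p, hp, mem_Icc.2 ⟨h7, h8⟩⟩
  have h7 := card_le_card h6
  rw [card_range] at h7
  have h8 : (Sg.biUnion (fun p => Icc p.1 p.2)).card ≤ Sg.card * (N - 1) := by
    refine card_biUnion_le.trans ?_
    rw [← smul_eq_mul]
    refine sum_le_card_nsmul _ _ _ fun p hp => ?_
    rw [Nat.card_Icc]
    exact h5 p hp
  have h9 := card_union_le Bd (Sg.biUnion (fun p => Icc p.1 p.2))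
  have h10 : Sg.card * (N - 1) ≤ (Bd.card + 1) * (N - 1) := Nat.mul_le_mul_right _ hc
  have h11 : (Bd.card + 1) * N = (Bd.card + 1) * (N - 1) + (Bd.card + 1) := by
    obtain ⟨k, rfl⟩ : ∃ k, N = k + 1 := ⟨N - 1, by omega⟩
    rw [Nat.add_sub_cancel]
    ring
  omega

/-- `K` joins a position `x` of the block `[a', a' + R]` to the position `z` of the class `κ` -/
structure Rg {V : Type} [DecidableEq V] (X : Cx V) (n : ℕ) (c : ℕ → V) (a b a' R : ℕ)
    (κ : (ℕ × ℕ) × Bool) (x z : ℕ) (K : Finset V) : Prop where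
  x1 : a' ≤ x
  x2 : x ≤ a' + R
  z1 : κ.1.1 ≤ z
  z2 : z ≤ κ.1.2
  st : κ.2 = true → z < a
  sf : κ.2 = false → b < z
  zn : z < n
  co : Comp X n c K
  ax : At X c K x
  az : At X c K z

theorem block (h4 : S_R1) (h5 : S_4A) (h7 : S_PCS)
    {V : Type} [DecidableEq V] (X : Cx V) (n : ℕ) (c : ℕ → V) (τ σ : ℕ) (hS : Set2 X n c τ σ)
    (M : Finset ℕ) (hM : Mark X n c M) (Sg : Finset (ℕ × ℕ)) (hSg : Sg.card ≤ M.card + 1)
    (hcov : ∀ i, i < n → i ∉ M → ∃ p ∈ Sg, p.1 ≤ i ∧ i ≤ p.2)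
    (a b : ℕ) (hcl : ∀ i, a ≤ i → i ≤ b → Cl X n c i) (h8 : 8 * (b - a) ≤ n)
    (a' : ℕ) (ha' : a ≤ a') (hb' : a' + bb X.m τ * (σ + τ + 2) ≤ b) :
    ∃ κ ∈ Sg ×ˢ (univ : Finset Bool), ∃ z z', z < z' ∧
      (∃ x K, Rg X n c a b a' (bb X.m τ * (σ + τ + 2)) κ x z K) ∧
      (∃ x K, Rg X n c a b a' (bb X.m τ * (σ + τ + 2)) κ x z' K) := by
  classical
  obtain ⟨R, hR⟩ : ∃ R, R = bb X.m τ * (σ + τ + 2) := ⟨_, rfl⟩
  rw [← hR] at hb' ⊢
  have hclI : ∀ p, a' ≤ p → p ≤ a' + R → Cl X n c p := fun p h1 h2 =>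
    hcl p (by omega) (by omega)
  have hcard := h4 V X n c τ σ a' (a' + R) hS hclI (by omega) (by omega)
  obtain ⟨-, hnb, -, -⟩ := h7 V X n c (Icc a' (a' + R)) hS.ok hS.good
    (fun i hi => hclI i (mem_Icc.1 hi).1 (mem_Icc.1 hi).2)
  set I : Finset ℕ := Icc a' (a' + R) with hI
  set QQ : Finset ℕ := (range n).filter (fun j => j ∉ I ∧ ((∃ i ∈ I, cons n i j) ∨
    ∃ K, Comp X n c K ∧ At X c K j ∧ ∃ i ∈ I, At X c K i)) with hQQ
  have hQ : (nbr X.G X.A (pcs X n c I)).card ≤ QQ.card := by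
    refine (card_le_card (t := QQ.image c) ?_).trans card_image_le
    intro w hw
    obtain ⟨j, hj, hjI, rfl, h⟩ := (hnb w).1 hw
    exact mem_image_of_mem c (mem_filter.2 ⟨mem_range.2 hj, hjI, h⟩)
  set GG : Finset ℕ := QQ.filter (fun j => ¬ (a ≤ j ∧ j ≤ b) ∧ j ∉ M ∧ ¬ ∃ i ∈ I, cons n i j)
    with hGG
  have hsub : QQ ⊆ GG ∪ (M ∪ ((Ico (a' - τ) a' ∪ Ioc (a' + R) (a' + R + τ)) ∪
      {a' - 1, a' + R + 1, 0, n - 1})) := by
    intro j hj
    obtain ⟨hjn, hjI, hjc⟩ := mem_filter.1 hj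
    have hjI' : ¬ (a' ≤ j ∧ j ≤ a' + R) := fun h => hjI (mem_Icc.2 h)
    by_cases h1 : ∃ i ∈ I, cons n i j
    · obtain ⟨i, hi, hc⟩ := h1
      have hi' := mem_Icc.1 hi
      have : j = a' - 1 ∨ j = a' + R + 1 ∨ j = 0 ∨ j = n - 1 := by
        unfold Pool.Agent.W957.CH.cons at hc
        omega
      simp only [mem_union, mem_insert, mem_singleton]
      tauto
    · have hK := hjc.resolve_left h1
      obtain ⟨K, hK1, hK2, i, hi, hK3⟩ := hK
      have hi' := mem_Icc.1 hi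
      by_cases h3 : a ≤ j ∧ j ≤ b
      · have h6 : j ∈ Ico (a' - τ) a' ∪ Ioc (a' + R) (a' + R + τ) := by
          rw [mem_union, mem_Ico, mem_Ioc]
          rcases lt_trichotomy i j with h9 | h9 | h9
          · have h10 := h5 V X n c τ σ i j K hS h9 (by omega)
              (fun p hp1 hp2 => hcl p (by omega) (by omega)) hK1 hK3 hK2
            right
            omega
          · exfalso
            omega
          · have h10 := h5 V X n c τ σ j i K hS h9 (by omega)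
              (fun p hp1 hp2 => hcl p (by omega) (by omega)) hK1 hK2 hK3
            left
            omega
        simp only [mem_union] at h6 ⊢
        tauto
      · by_cases hjM : j ∈ M
        · simp only [mem_union]
          tauto
        · have : j ∈ GG := mem_filter.2 ⟨hj, h3, hjM, h1⟩
          simp only [mem_union]
          tauto
  have hc1 := card_le_card hsub
  have hc2 := card_union_le GG (M ∪ ((Ico (a' - τ) a' ∪ Ioc (a' + R) (a' + R + τ)) ∪
      {a' - 1, a' + R + 1, 0, n - 1}))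
  have hc3 := card_union_le M ((Ico (a' - τ) a' ∪ Ioc (a' + R) (a' + R + τ)) ∪
      {a' - 1, a' + R + 1, 0, n - 1})
  have hc4 := card_union_le (Ico (a' - τ) a' ∪ Ioc (a' + R) (a' + R + τ))
      {a' - 1, a' + R + 1, 0, n - 1}
  have hc5 := card_union_le (Ico (a' - τ) a') (Ioc (a' + R) (a' + R + τ))
  rw [Nat.card_Ico, Nat.card_Ioc] at hc5
  have hc6 : ({a' - 1, a' + R + 1, 0, n - 1} : Finset ℕ).card ≤ 4 := card_le_four
  have hbb : bb X.m τ = beta X.m (4 * τ + 8) + 4 * τ + 8 + 4 * mu X.m := rfl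
  have hMc := hM.card
  have hGc : 2 * mu X.m < GG.card := by omega
  choose! g hg using hcov
  have hGj : ∀ j ∈ GG, j < n ∧ j ∉ M ∧ ¬ (a ≤ j ∧ j ≤ b) ∧
      ∃ K, Comp X n c K ∧ At X c K j ∧ ∃ i ∈ I, At X c K i := by
    intro j hj
    obtain ⟨hj1, hj2, hj3, hj4⟩ := mem_filter.1 hj
    obtain ⟨hj5, hj6, hj7⟩ := mem_filter.1 hj1
    exact ⟨mem_range.1 hj5, hj3, hj2, hj7.resolve_left hj4⟩
  have hmap : ∀ j ∈ GG, (g j, decide (j < a)) ∈ Sg ×ˢ (univ : Finset Bool) := by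
    intro j hj
    obtain ⟨h10, h11, -, -⟩ := hGj j hj
    exact mem_product.2 ⟨(hg j h10 h11).1, mem_univ _⟩
  have hcc : (Sg ×ˢ (univ : Finset Bool)).card < GG.card := by
    rw [card_product, card_univ, Fintype.card_bool]
    omega
  have hRg : ∀ j ∈ GG, ∃ x K, Rg X n c a b a' R (g j, decide (j < a)) x j K := by
    intro j hj
    obtain ⟨h10, h11, h12, K, h13, h14, i, hi, h15⟩ := hGj j hj
    have hi' := mem_Icc.1 hi
    obtain ⟨-, h16, h17⟩ := hg j h10 h11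
    refine ⟨i, K, ⟨hi'.1, hi'.2, h16, h17, fun h => ?_, fun h => ?_, h10, h13, h15, h14⟩⟩
    · simpa using h
    · have : ¬ j < a := by simpa using h
      omega
  obtain ⟨z, hz, z', hz', hne, heq⟩ := exists_ne_map_eq_of_card_lt_of_maps_to hcc hmap
  obtain ⟨x, K, hr⟩ := hRg z hz
  obtain ⟨x', K', hr'⟩ := hRg z' hz'
  rcases lt_or_gt_of_ne hne with h | h
  · refine ⟨_, hmap z hz, z, z', h, ⟨x, K, hr⟩, ⟨x', K', ?_⟩⟩
    rw [heq]
    exact hr'
  · refine ⟨_, hmap z hz, z', z, h, ⟨x', K', ?_⟩, ⟨x, K, hr⟩⟩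
    rw [heq]
    exact hr'

open Classical in
theorem key (h5 : S_4A) (h6 : S_PS) {V : Type} [DecidableEq V] (X : Cx V) (n : ℕ) (c : ℕ → V)
    (τ σ : ℕ) (hS : Set2 X n c τ σ) (M : Finset ℕ) (hM : Mark X n c M) (a b U : ℕ)
    (hcl : ∀ i, a ≤ i → i ≤ b → Cl X n c i) (h8 : 8 * (b - a) ≤ n)
    (hU : ∀ w w', w' < n → ((Icc w w').filter (fun i => ¬ Cl X n c i)).card ≤ U)
    (κ : (ℕ × ℕ) × Bool) (hκ : ∀ i, κ.1.1 ≤ i → i ≤ κ.1.2 → i ∉ M)
    (a1 a2 : ℕ) (ha1 : a ≤ a1) (ha2 : a2 + bb X.m τ * (σ + τ + 2) ≤ b)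
    (h12 : a1 + bb X.m τ * (σ + τ + 2) + rho (bb X.m τ * (σ + τ + 2)) τ U < a2)
    (x z : ℕ) (K : Finset V) (hr : Rg X n c a b a1 (bb X.m τ * (σ + τ + 2)) κ x z K)
    (x' z' : ℕ) (K' : Finset V) (hr' : Rg X n c a b a2 (bb X.m τ * (σ + τ + 2)) κ x' z' K') :
    z' ≤ z := by
  by_contra hlt
  push Not at hlt
  have hρ := rho_ge (bb X.m τ * (σ + τ + 2)) τ U
  have q1 := hr.x1
  have q2 := hr.x2
  have q3 := hr'.x1
  have q4 := hr'.x2
  have q5 := hr.z1
  have q6 := hr'.z2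
  have hclx : ∀ p, x ≤ p → p ≤ x' → Cl X n c p := fun p h1 h2 => hcl p (by omega) (by omega)
  have hne : K ≠ K' := by
    intro h
    have := h5 V X n c τ σ x x' K hS (by omega) (by omega) hclx hr.co hr.ax (h ▸ hr'.ax)
    omega
  have hun : ∀ i, z ≤ i → i ≤ z' → i ∉ M := fun i h1 h2 => hκ i (by omega) (by omega)
  have hP : PaP X n c x x' z z' K K' := by
    refine ⟨by omega, hlt, ?_, hclx, hr'.zn, ?_, by omega, ?_, hne, hr.co, hr'.co, hr.ax, hr.az,
      hr'.ax, hr'.az⟩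
    · cases hk : κ.2 with
      | true =>
        have := hr'.st hk
        right
        omega
      | false =>
        have := hr.sf hk
        left
        omega
    · intro i h1 h2 h3
      exact hun i h1 h2 (hM.ce i (lt_of_le_of_lt h2 hr'.zn) h3)
    · exact hM.gap z z' hlt.le hr'.zn hun
  have := h6 V X n c τ σ x x' z z' U K K' hS hP (hU z z' hr'.zn)
  omega

theorem t_LA1 (h1 : S_MARK) (h2 : S_SEG) (h3 : S_UC) (h4 : S_R1) (h5 : S_4A) (h6 : S_PS)
    (h7 : S_PCS) : S_LA1 := by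
  classical
  intro V _ X n c τ σ T hS hT hbig
  obtain ⟨M, hM⟩ := h1 V X n c hS.ok hS.good
  have hU := h3 V X n c hS.ok hS.good
  obtain ⟨R, hR⟩ : ∃ R, R = bb X.m τ * (σ + τ + 2) := ⟨_, rfl⟩
  obtain ⟨U, hUd⟩ : ∃ U, U = UU X.m X.B.card := ⟨_, rfl⟩
  obtain ⟨μ, hμ⟩ : ∃ μ, μ = mu X.m := ⟨_, rfl⟩
  obtain ⟨ρ, hρd⟩ : ∃ ρ, ρ = rho R τ U := ⟨_, rfl⟩
  have hρ : τ + 1 ≤ ρ := hρd ▸ rho_ge R τ U
  have hμ10 : 10 ≤ μ := by
    rw [hμ]
    unfold mu
    omega
  have hMc := hM.card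
  rw [← hμ] at hMc
  rw [← hUd] at hU
  rw [← hR, ← hUd, ← hμ, ← hρd] at hbig
  obtain ⟨D, hD⟩ : ∃ D, D = R + 2 + ρ := ⟨_, rfl⟩
  obtain ⟨SS, hSS⟩ : ∃ SS, SS = 2 * μ * (T + 1) := ⟨_, rfl⟩
  rw [← hD, ← hSS] at hbig
  have hSS0 : 1 ≤ SS := by
    rw [hSS]
    exact Nat.succ_le_of_lt (by positivity)
  have hBc : ((range n).filter (fun i => ¬ Cl X n c i) ∪ M).card + 1 ≤ U + μ + 2 := by
    have := card_union_le ((range n).filter (fun i => ¬ Cl X n c i)) M
    omega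
  obtain ⟨a, b, hab, hbn, hlen, hgood⟩ := long_gap h2 n (SS * D)
    ((range n).filter (fun i => ¬ Cl X n c i) ∪ M) (by
      intro i hi
      rcases mem_union.1 hi with h | h
      · exact mem_range.1 (mem_filter.1 h).1
      · exact hM.lt i h) (by
      refine le_trans (Nat.mul_le_mul_right _ hBc) ?_
      rw [← mul_assoc]
      exact hbig) (by
      have : 1 * 1 ≤ SS * D := Nat.mul_le_mul hSS0 (by omega)
      simpa using this)
  have hcl : ∀ i, a ≤ i → i ≤ b → Cl X n c i := by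
    intro i hi1 hi2
    by_contra h
    exact hgood i hi1 hi2 (mem_union_left _ (mem_filter.2 ⟨mem_range.2 (by omega), h⟩))
  have hum : ∀ i, a ≤ i → i ≤ b → i ∉ M := fun i hi1 hi2 h =>
    hgood i hi1 hi2 (mem_union_right _ h)
  have h8 : 8 * (b - a) ≤ n := hM.gap a b hab hbn hum
  obtain ⟨Sg, hSg, hSg1, hSg2⟩ := h2 n M hM.lt
  have hfit : ∀ s, s < SS → a + s * D + R + 1 + ρ ≤ b := by
    intro s hs
    have : (s + 1) * D ≤ SS * D := Nat.mul_le_mul_right _ hs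
    have e : (s + 1) * D = s * D + D := by ring
    omega
  have hblk : ∀ s, s < SS → ∃ κ ∈ Sg ×ˢ (univ : Finset Bool), ∃ z z', z < z' ∧
      (∃ x K, Rg X n c a b (a + s * D) R κ x z K) ∧
      (∃ x K, Rg X n c a b (a + s * D) R κ x z' K) := by
    intro s hs
    have hf := hfit s hs
    rw [hR]
    exact block h4 h5 h7 X n c τ σ hS M hM Sg hSg hSg2 a b hcl h8 (a + s * D) (by omega)
      (by rw [← hR]; omega)
  choose! κ hκ z z' hz hA hB using hblk
  choose! x K hr using hA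
  choose! x' K' hr' using hB
  have hUI : ∀ w w', w' < n → ((Icc w w').filter (fun i => ¬ Cl X n c i)).card ≤ U := by
    intro w w' hw
    refine le_trans (card_le_card ?_) hU
    intro i hi
    obtain ⟨hi1, hi2⟩ := mem_filter.1 hi
    exact mem_filter.2 ⟨mem_range.2 (lt_of_le_of_lt (mem_Icc.1 hi1).2 hw), hi2⟩
  obtain ⟨κ0, hκ0, hcard⟩ := exists_lt_card_fiber_of_mul_lt_card_of_maps_to
    (s := range SS) (t := Sg ×ˢ (univ : Finset Bool)) (f := κ) (n := T)
    (fun s hs => hκ s (mem_range.1 hs)) (by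
      rw [card_range, card_product, card_univ, Fintype.card_bool, hSS]
      have : Sg.card ≤ μ := by omega
      have : Sg.card * 2 * T ≤ μ * 2 * T := by gcongr
      have e : 2 * μ * (T + 1) = μ * 2 * T + 2 * μ := by ring
      omega)
  set F : Finset ℕ := (range SS).filter (fun s => κ s = κ0) with hF
  obtain ⟨e, he1, he2⟩ : ∃ e : ℕ → ℕ, (∀ r, r < T → e r < SS ∧ κ (e r) = κ0) ∧
      ∀ r r', r < r' → r' < T → e r < e r' := by
    refine ⟨fun r => if h : r < F.card then F.orderEmbOfFin rfl ⟨r, h⟩ else 0, ?_, ?_⟩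
    · intro r hrT
      have h9 : r < F.card := by omega
      simp only [h9, dif_pos]
      have h10 := F.orderEmbOfFin_mem rfl ⟨r, h9⟩
      obtain ⟨h11, h12⟩ := mem_filter.1 h10
      exact ⟨mem_range.1 h11, h12⟩
    · intro r r' hrr hrT
      have h9 : r < F.card := by omega
      have h10 : r' < F.card := by omega
      simp only [h9, h10, dif_pos]
      exact (F.orderEmbOfFin rfl).strictMono hrr
  have hκM : ∀ i, κ0.1.1 ≤ i → i ≤ κ0.1.2 → i ∉ M :=
    (hSg1 κ0.1 (mem_product.1 hκ0).1).2.2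
  have hrg : ∀ r, r < T → Rg X n c a b (a + e r * D) R κ0 (x' (e r)) (z' (e r)) (K' (e r)) := by
    intro r hrT
    have := hr' (e r) (he1 r hrT).1
    rwa [(he1 r hrT).2] at this
  have hrg0 : ∀ r, r < T → Rg X n c a b (a + e r * D) R κ0 (x (e r)) (z (e r)) (K (e r)) := by
    intro r hrT
    have := hr (e r) (he1 r hrT).1
    rwa [(he1 r hrT).2] at this
  have hstep : ∀ r r', r < r' → r' < T → a + e r * D + R + 2 + ρ ≤ a + e r' * D := by
    intro r r' hrr hrT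
    have : (e r + 1) * D ≤ e r' * D := Nat.mul_le_mul_right _ (he2 r r' hrr hrT)
    have e1 : (e r + 1) * D = e r * D + D := by ring
    omega
  have hin : ∀ r, r < T → a ≤ x' (e r) ∧ x' (e r) ≤ b := by
    intro r hrT
    have h9 := (hrg r hrT).x1
    have h10 := (hrg r hrT).x2
    have h11 := hfit (e r) (he1 r hrT).1
    omega
  refine ⟨fun r => x' (e r), fun r => z' (e r), fun r => K' (e r), ?_, ?_, ?_, ?_, ?_, ?_, ?_, ?_⟩
  · intro r hrT
    have h9 := (hrg r (by omega)).x2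
    have h10 := (hrg (r + 1) hrT).x1
    have h11 := hstep r (r + 1) (by omega) hrT
    show x' (e r) + τ < x' (e (r + 1))
    omega
  · intro r hrT
    have hst := hstep r (r + 1) (by omega) hrT
    have hft := hfit (e (r + 1)) (he1 (r + 1) hrT).1
    have h9 := key h5 h6 X n c τ σ hS M hM a b U hcl h8 hUI κ0 hκM (a + e r * D)
      (a + e (r + 1) * D) (by omega) (by rw [← hR]; omega)
      (by rw [← hR, ← hρd]; omega) (x (e r)) (z (e r)) (K (e r))
      (by rw [← hR]; exact hrg0 r (by omega)) (x' (e (r + 1))) (z' (e (r + 1))) (K' (e (r + 1)))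
      (by rw [← hR]; exact hrg (r + 1) hrT)
    have h10 := hz (e r) (he1 r (by omega)).1
    show z' (e (r + 1)) < z' (e r)
    omega
  · cases hk : κ0.2 with
    | true =>
      right
      intro r s hrT hsT
      have h9 := (hrg s hsT).st hk
      have h10 := hin r hrT
      show z' (e s) < x' (e r)
      omega
    | false =>
      left
      intro r s hrT hsT
      have h9 := (hrg s hsT).sf hk
      have h10 := hin r hrT
      show x' (e r) < z' (e s)
      omega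
  · intro r hrT
    have h10 := hin r hrT
    exact ⟨lt_of_le_of_lt h10.2 hbn, (hrg r hrT).zn⟩
  · intro r s hrT hsT i hi1 hi2
    have h10 := hin r hrT
    have h11 := hin s hsT
    exact hcl i (by omega) (by omega)
  · intro r s hrT hsT
    have h10 := hin r hrT
    have h11 := hin s hsT
    show 8 * (x' (e r) - x' (e s)) ≤ n
    omega
  · intro r s hrT hsT
    show 8 * (z' (e r) - z' (e s)) ≤ n
    rcases Nat.lt_or_ge (z' (e r)) (z' (e s)) with h9 | h9
    · omega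
    · refine hM.gap (z' (e s)) (z' (e r)) h9 (hrg r hrT).zn fun i h10 h11 => ?_
      have h12 := (hrg s hsT).z1
      have h13 := (hrg r hrT).z2
      exact hκM i (by omega) (by omega)
  · intro r hrT
    exact ⟨(hrg r hrT).co, (hrg r hrT).ax, (hrg r hrT).az⟩

end Pool.Agent.W174.CH.LA1
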